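import Pool.Agent.Work.MP_90c6bd_nt.Core

/-!
# Lang's conjectured lower bound for linear forms in logarithms fails

For every `0 < ε < 1/14` and every constant `C` (however small) there are five multiplicatively
independent rationals `a_j > 1` and nonzero integers `b_j` such that
`0 < Λ = ∑ b_j log a_j < C * B * ∏ (|b_j| * A_j ^ 2) ^ (-(1 + ε))`.
-/

set_option autoImplicit false

namespace Pool.Agent.Results.MP_90c6bd_nt.IndependentFamily

open Pool.Agent.Work.MP_90c6bd_nt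

private lemma vzero (p : ℕ) [hp : Fact p.Prime] (x y : ℤ) (hx : ¬ (p : ℤ) ∣ x)
    (hy : ¬ (p : ℤ) ∣ y) : padicValRat p ((x : ℚ) / (y : ℚ)) = 0 := by
  have hx0 : x ≠ 0 := by rintro rfl; exact hx (dvd_zero _)
  have hy0 : y ≠ 0 := by rintro rfl; exact hy (dvd_zero _)
  rw [padicValRat.div (by exact_mod_cast hx0) (by exact_mod_cast hy0), padicValRat.of_int,
    padicValRat.of_int, padicValInt.eq_zero_of_not_dvd hx, padicValInt.eq_zero_of_not_dvd hy]
  simp

private lemma vpos (p : ℕ) [hp : Fact p.Prime] (x y : ℤ) (hx0 : x ≠ 0) (hx : (p : ℤ) ∣ x)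
    (hy : ¬ (p : ℤ) ∣ y) : padicValRat p ((x : ℚ) / (y : ℚ)) ≠ 0 := by
  have hy0 : y ≠ 0 := by rintro rfl; exact hy (dvd_zero _)
  rw [padicValRat.div (by exact_mod_cast hx0) (by exact_mod_cast hy0), padicValRat.of_int,
    padicValRat.of_int, padicValInt.eq_zero_of_not_dvd hy]
  have h1 : padicValInt p x ≠ 0 := by
    intro h
    have h2 : ¬ p ∣ x.natAbs := by
      intro h3
      have h4 := (dvd_iff_padicValNat_ne_zero (p := p) (n := x.natAbs)
        (by simpa using hx0)).1 h3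
      exact h4 h
    exact h2 (by rwa [← Int.natCast_dvd])
  simpa using h1

private lemma vprod (p : ℕ) [hp : Fact p.Prime] (a : Fin 5 → ℚ) (ha : ∀ j, a j ≠ 0)
    (k : Fin 5 → ℤ) :
    padicValRat p (∏ j, a j ^ k j) = ∑ j, k j * padicValRat p (a j) := by
  have h : ∀ j, a j ^ k j ≠ 0 := fun j => zpow_ne_zero _ (ha j)
  rw [Fin.prod_univ_five, Fin.sum_univ_five,
    padicValRat.mul (mul_ne_zero (mul_ne_zero (mul_ne_zero (h 0) (h 1)) (h 2)) (h 3)) (h 4),
    padicValRat.mul (mul_ne_zero (mul_ne_zero (h 0) (h 1)) (h 2)) (h 3),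
    padicValRat.mul (mul_ne_zero (h 0) (h 1)) (h 2),
    padicValRat.mul (h 0) (h 1)]
  simp only [padicValRat.zpow]

private lemma valCoord (N : ℤ) (j : Fin 5) (p : ℕ) [hp : Fact p.Prime]
    (h : ∀ i, i ≠ j → padicValRat p (av N i) = 0) (hj : padicValRat p (av N j) ≠ 0)
    (ha : ∀ i, av N i ≠ 0) (k : Fin 5 → ℤ) (hk : ∏ i, av N i ^ k i = 1) : k j = 0 := by
  have h1 := vprod p (av N) ha k
  rw [hk, padicValRat.one, Finset.sum_eq_single j] at h1
  · rcases mul_eq_zero.1 h1.symm with h2 | h2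
    · exact h2
    · exact absurd h2 hj
  · intro i _ hi
    rw [h i hi, mul_zero]
  · intro h2
    exact absurd (Finset.mem_univ j) h2

private lemma indep (t : ℕ) (k : Fin 5 → ℤ)
    (hk : ∏ i, av (408595 * (t : ℤ) + 59694) i ^ k i = 1) : k = 0 := by
  set N : ℤ := 408595 * (t : ℤ) + 59694 with hN
  have ha : ∀ i, av N i ≠ 0 := fun i => (av_pos N (by omega) i).ne'
  have a0 : av N 0 = ((1*N+1 : ℤ) : ℚ) / ((1*N-1 : ℤ) : ℚ) := rfl
  have a1 : av N 1 = ((1*N+3 : ℤ) : ℚ) / ((1*N-3 : ℤ) : ℚ) := rfl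
  have a2 : av N 2 = ((7*N+19 : ℤ) : ℚ) / ((7*N-19 : ℤ) : ℚ) := rfl
  have a3 : av N 3 = ((12*N+29 : ℤ) : ℚ) / ((12*N-29 : ℤ) : ℚ) := rfl
  have a4 : av N 4 = ((95*N+157 : ℤ) : ℚ) / ((95*N-157 : ℤ) : ℚ) := rfl
  have : Fact (Nat.Prime 5) := ⟨by norm_num⟩
  have : Fact (Nat.Prime 11) := ⟨by norm_num⟩
  have : Fact (Nat.Prime 17) := ⟨by norm_num⟩
  have : Fact (Nat.Prime 19) := ⟨by norm_num⟩
  have : Fact (Nat.Prime 23) := ⟨by norm_num⟩
  have k0 : k 0 = 0 := by
    refine valCoord N 0 5 ?_ ?_ ha k hk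
    · intro i hi
      fin_cases i
      · exact absurd rfl hi
      · exact vzero 5 _ _ (by omega) (by omega)
      · exact vzero 5 _ _ (by omega) (by omega)
      · exact vzero 5 _ _ (by omega) (by omega)
      · exact vzero 5 _ _ (by omega) (by omega)
    · rw [a0]
      exact vpos 5 _ _ (by omega) (by omega) (by omega)
  have k1 : k 1 = 0 := by
    refine valCoord N 1 11 ?_ ?_ ha k hk
    · intro i hi
      fin_cases i
      · exact vzero 11 _ _ (by omega) (by omega)
      · exact absurd rfl hi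
      · exact vzero 11 _ _ (by omega) (by omega)
      · exact vzero 11 _ _ (by omega) (by omega)
      · exact vzero 11 _ _ (by omega) (by omega)
    · rw [a1]
      exact vpos 11 _ _ (by omega) (by omega) (by omega)
  have k2 : k 2 = 0 := by
    refine valCoord N 2 17 ?_ ?_ ha k hk
    · intro i hi
      fin_cases i
      · exact vzero 17 _ _ (by omega) (by omega)
      · exact vzero 17 _ _ (by omega) (by omega)
      · exact absurd rfl hi
      · exact vzero 17 _ _ (by omega) (by omega)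
      · exact vzero 17 _ _ (by omega) (by omega)
    · rw [a2]
      exact vpos 17 _ _ (by omega) (by omega) (by omega)
  have k3 : k 3 = 0 := by
    refine valCoord N 3 19 ?_ ?_ ha k hk
    · intro i hi
      fin_cases i
      · exact vzero 19 _ _ (by omega) (by omega)
      · exact vzero 19 _ _ (by omega) (by omega)
      · exact vzero 19 _ _ (by omega) (by omega)
      · exact absurd rfl hi
      · exact vzero 19 _ _ (by omega) (by omega)
    · rw [a3]
      exact vpos 19 _ _ (by omega) (by omega) (by omega)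
  have k4 : k 4 = 0 := by
    refine valCoord N 4 23 ?_ ?_ ha k hk
    · intro i hi
      fin_cases i
      · exact vzero 23 _ _ (by omega) (by omega)
      · exact vzero 23 _ _ (by omega) (by omega)
      · exact vzero 23 _ _ (by omega) (by omega)
      · exact vzero 23 _ _ (by omega) (by omega)
      · exact absurd rfl hi
    · rw [a4]
      exact vpos 23 _ _ (by omega) (by omega) (by omega)
  funext i
  fin_cases i
  · exact k0
  · exact k1
  · exact k2
  · exact k3
  · exact k4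

private lemma av_gt_one (N : ℤ) (hN : 10 ≤ N) : ∀ j, 1 < av N j := by
  have key : ∀ x y : ℤ, 0 < y → y < x → (1 : ℚ) < (x : ℚ) / (y : ℚ) := by
    intro x y hy hxy
    rw [lt_div_iff₀ (by exact_mod_cast hy), one_mul]
    exact_mod_cast hxy
  intro j
  fin_cases j
  · exact key (1*N+1) (1*N-1) (by omega) (by omega)
  · exact key (1*N+3) (1*N-3) (by omega) (by omega)
  · exact key (7*N+19) (7*N-19) (by omega) (by omega)
  · exact key (12*N+29) (12*N-29) (by omega) (by omega)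
  · exact key (95*N+157) (95*N-157) (by omega) (by omega)

private lemma bv_ne (N : ℤ) (hN : 10 ≤ N) : ∀ j, bv N j ≠ 0 := by
  have hN2 : 100 ≤ N^2 := by nlinarith
  have b0 : bv N 0 = 45479491467540058023851830360000 - 98383720254515771871355848288000 * N^2 := rfl
  have b1 : bv N 1 = -276635394991683276311392154963955 + 32794573418171923957118616096000 * N^2 := rfl
  have b2 : bv N 2 = 61985414793194558715462071380176 := rfl
  have b3 : bv N 3 = 65929432570692054807691074207744 := rfl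
  have b4 : bv N 4 = 117687765819490592030535888671875 := rfl
  intro j
  fin_cases j
  · show bv N 0 ≠ 0
    rw [b0]; generalize N^2 = t at *; omega
  · show bv N 1 ≠ 0
    rw [b1]; generalize N^2 = t at *; omega
  · show bv N 2 ≠ 0
    rw [b2]; norm_num
  · show bv N 3 ≠ 0
    rw [b3]; norm_num
  · show bv N 4 ≠ 0
    rw [b4]; norm_num

/-- For every `0 < ε < 1/14` and every `C > 0` there are five multiplicatively independent
rationals `a_j > 1` and nonzero integers `b_j` with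
`0 < Λ < C * B * ∏ (|b_j| * A_j ^ 2) ^ (-(1 + ε))`, where `Λ = ∑ b_j log a_j`, `B = max |b_j|`,
`A_j = max (num a_j) (den a_j)`. -/
theorem result (ε : ℝ) (hε : 0 < ε) (hε' : ε < 1 / 14) (C : ℝ) (hC : 0 < C) :
    ∃ (a : Fin 5 → ℚ) (b : Fin 5 → ℤ),
      (∀ j, 1 < a j) ∧ (∀ j, b j ≠ 0) ∧
      (∀ k : Fin 5 → ℤ, ∏ j, a j ^ k j = 1 → k = 0) ∧
      0 < ∑ j, (b j : ℝ) * Real.log (a j : ℝ) ∧
      ∑ j, (b j : ℝ) * Real.log (a j : ℝ) <
        C * ((Finset.univ.sup fun j => (b j).natAbs : ℕ) : ℝ) *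
          ∏ j, (((b j).natAbs : ℝ) *
            (max (((a j).num.natAbs : ℕ) : ℝ) (((a j).den : ℕ) : ℝ)) ^ 2) ^ (-(1 + ε)) := by
  have hδ : 0 < 1 - 14 * ε := by linarith
  -- choose t
  have hlim : Filter.Tendsto (fun t : ℕ => ((408595 * (t : ℤ) + 59694 : ℤ) : ℝ) ^ (1 - 14 * ε))
      Filter.atTop Filter.atTop := by
    apply (tendsto_rpow_atTop hδ).comp
    push_cast
    apply Filter.tendsto_atTop_add_const_right
    exact tendsto_natCast_atTop_atTop.const_mul_atTop (by norm_num)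
  have hlim2 : Filter.Tendsto (fun t : ℕ => ((408595 * (t : ℤ) + 59694 : ℤ) : ℝ))
      Filter.atTop Filter.atTop := by
    push_cast
    apply Filter.tendsto_atTop_add_const_right
    exact tendsto_natCast_atTop_atTop.const_mul_atTop (by norm_num)
  obtain ⟨t, ht1, ht2⟩ := ((hlim.eventually_gt_atTop
    (10 ^ 36 / (C * ((10 : ℝ) ^ 190) ^ (-(1 + ε))))).and
    (hlim2.eventually_ge_atTop ((10 : ℝ) ^ 20))).exists
  set N : ℤ := 408595 * (t : ℤ) + 59694 with hNdef
  have hN10 : 10 ≤ N := by omega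
  set x : ℝ := (N : ℝ) with hx
  have hx0 : 0 < x := by linarith [show (0:ℝ) < 10^20 by positivity]
  obtain ⟨L1, L2⟩ := Lam_bounds x ht2
  have hsum := sum_eq N hN10
  have habs : ∀ j, 1 ≤ (bv N j).natAbs := fun j => Nat.pos_of_ne_zero (by
    simpa using bv_ne N hN10 j)
  have hmax : ∀ j, (max (bv N j).natAbs 1 : ℕ) = (bv N j).natAbs := fun j => max_eq_left (habs j)
  refine ⟨av N, bv N, av_gt_one N hN10, bv_ne N hN10, ?_, ?_, ?_⟩
  · intro k hk
    exact indep t k hk
  · rw [hsum]; exact L1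
  rw [hsum]
  -- product
  have hBA : ∀ j, ((bv N j).natAbs : ℝ) *
      (max (((av N j).num.natAbs : ℕ) : ℝ) (((av N j).den : ℕ) : ℝ)) ^ 2 ≤
      (10^33 * ![x^2, x^2, 1, 1, 1] j) * (300 * x) ^ 2 := by
    intro j
    have h1 := bv_bound N hN10 j
    rw [hmax j] at h1
    have h2 := av_height N hN10 j
    rw [Nat.cast_max] at h2
    have h3 : (0:ℝ) ≤ max (((av N j).num.natAbs : ℕ) : ℝ) (((av N j).den : ℕ) : ℝ) :=
      le_max_of_le_left (Nat.cast_nonneg _)
    exact mul_le_mul h1 (pow_le_pow_left₀ h3 h2 2) (by positivity)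
      (le_trans (Nat.cast_nonneg _) h1)
  have hpos : ∀ j, 0 < ((bv N j).natAbs : ℝ) *
      (max (((av N j).num.natAbs : ℕ) : ℝ) (((av N j).den : ℕ) : ℝ)) ^ 2 := by
    intro j
    have h1 : (0:ℝ) < ((bv N j).natAbs : ℝ) := by exact_mod_cast (habs j)
    have h2 : (0:ℝ) < max (((av N j).num.natAbs : ℕ) : ℝ) (((av N j).den : ℕ) : ℝ) :=
      lt_max_of_lt_right (by exact_mod_cast (av N j).pos)
    positivity
  have hprod : ∏ j, (((bv N j).natAbs : ℝ) *
      (max (((av N j).num.natAbs : ℕ) : ℝ) (((av N j).den : ℕ) : ℝ)) ^ 2) ≤ 10^190 * x^14 := by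
    calc ∏ j, (((bv N j).natAbs : ℝ) *
          (max (((av N j).num.natAbs : ℕ) : ℝ) (((av N j).den : ℕ) : ℝ)) ^ 2)
        ≤ ∏ j, ((10^33 * ![x^2, x^2, 1, 1, 1] j) * (300 * x) ^ 2) :=
          Finset.prod_le_prod (fun j _ => (hpos j).le) (fun j _ => hBA j)
      _ = (10^165 * 300^10) * x^14 := by
          rw [Fin.prod_univ_five]
          have e0 : (![x^2, x^2, 1, 1, 1] : Fin 5 → ℝ) 0 = x^2 := rfl
          have e1 : (![x^2, x^2, 1, 1, 1] : Fin 5 → ℝ) 1 = x^2 := rfl
          have e2 : (![x^2, x^2, 1, 1, 1] : Fin 5 → ℝ) 2 = 1 := rfl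
          have e3 : (![x^2, x^2, 1, 1, 1] : Fin 5 → ℝ) 3 = 1 := rfl
          have e4 : (![x^2, x^2, 1, 1, 1] : Fin 5 → ℝ) 4 = 1 := rfl
          rw [e0, e1, e2, e3, e4]
          ring
      _ ≤ 10^190 * x^14 := by
          apply mul_le_mul_of_nonneg_right _ (by positivity)
          norm_num
  have hprodpos : 0 < ∏ j, (((bv N j).natAbs : ℝ) *
      (max (((av N j).num.natAbs : ℕ) : ℝ) (((av N j).den : ℕ) : ℝ)) ^ 2) :=
    Finset.prod_pos (fun j _ => hpos j)
  rw [Real.finsetProd_rpow _ _ (fun j _ => (hpos j).le)]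
  have hsup : x ^ 2 ≤ ((Finset.univ.sup fun j => (bv N j).natAbs : ℕ) : ℝ) := by
    have h := sup_bound N hN10
    simp only [hmax] at h
    exact h
  have hx13 : (x⁻¹) ^ 13 = x ^ (-13 : ℝ) := by
    have h13 : (13:ℝ) = ((13:ℕ):ℝ) := by norm_num
    rw [inv_pow, Real.rpow_neg hx0.le, h13, Real.rpow_natCast]
  have hkey : x ^ 2 * (10 ^ 190 * x ^ 14) ^ (-(1 + ε)) =
      (10 ^ 190) ^ (-(1 + ε)) * (x ^ (1 - 14 * ε) * x ^ (-13 : ℝ)) := by
    rw [Real.mul_rpow (by positivity) (by positivity), ← Real.rpow_natCast x 14,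
      ← Real.rpow_natCast x 2, ← Real.rpow_mul hx0.le, ← Real.rpow_add hx0]
    rw [mul_left_comm, ← Real.rpow_add hx0]
    congr 2
    push_cast
    ring
  calc Lam x ≤ 10 ^ 36 * (x⁻¹) ^ 13 := L2
    _ = 10 ^ 36 * x ^ (-13 : ℝ) := by rw [hx13]
    _ < (C * ((10 : ℝ) ^ 190) ^ (-(1 + ε)) * x ^ (1 - 14 * ε)) * x ^ (-13 : ℝ) := by
        apply mul_lt_mul_of_pos_right _ (Real.rpow_pos_of_pos hx0 _)
        rw [div_lt_iff₀ (mul_pos hC (Real.rpow_pos_of_pos (by positivity) _))] at ht1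
        linarith
    _ = C * (x ^ 2 * (10 ^ 190 * x ^ 14) ^ (-(1 + ε))) := by
        rw [hkey]; ring
    _ ≤ C * (((Finset.univ.sup fun j => (bv N j).natAbs : ℕ) : ℝ) *
          (∏ j, (((bv N j).natAbs : ℝ) *
            (max (((av N j).num.natAbs : ℕ) : ℝ) (((av N j).den : ℕ) : ℝ)) ^ 2)) ^ (-(1 + ε))) := by
        apply mul_le_mul_of_nonneg_left _ hC.le
        apply mul_le_mul hsup _ (Real.rpow_nonneg (by positivity) _) (Nat.cast_nonneg _)
        exact Real.rpow_le_rpow_of_nonpos hprodpos hprod (by linarith)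
    _ = _ := by ring

end Pool.Agent.Results.MP_90c6bd_nt.IndependentFamily
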